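import Pool.Agent.H13.MA.Stmts

/-!
Module BGF of project MA: closure properties of a set which is closed under small subsets.
-/

set_option linter.unusedVariables false
set_option synthInstance.maxSize 100000

namespace SW

section
variable {M : Type} [SetStr M] [ZF M]

theorem bgf_emp {w : M} (hF : CbA M) (hw : IsW w) : E emp w := by
  refine emp_mem_ord hw.1 fun h => hw.2.1 ?_
  rw [h]
  exact hF.fin finF.emp

/-- countable sets are images of the index set -/
theorem bgf_cb {w a : M} (hF : CbA M) (hw : IsW w) (ha : Cb a) : Img (ZZ w) a := by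
  obtain ⟨g, h1, h2⟩ := ha
  have h0 := bgf_emp hF hw
  have hf : Fn1 (fun t : M => the (fun y : M => E y a ∧ ∃ n : M, E n om ∧
      t = opair (opair emp emp) n ∧ E (opair y n) g)) := inferInstance
  refine ⟨gr (ZZ w) (fun t => the (fun y => E y a ∧ ∃ n, E n om ∧
    t = opair (opair emp emp) n ∧ E (opair y n) g)), fun y hy => ?_⟩
  obtain ⟨n, hn, hyn⟩ := h1 y hy
  have ht : E (opair (opair emp emp) n) (ZZ w) := by
    unfold ZZ
    rw [mem_prod, mem_prod]
    exact ⟨⟨h0, h0⟩, hn⟩
  refine ⟨opair (opair emp emp) n, ht, ?_⟩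
  rw [app_gr hf ht]
  symm
  refine the_eq ⟨hy, n, hn, rfl, hyn⟩ ?_
  rintro z ⟨hz, n', hn', he, hzn⟩
  rw [opair_inj] at he
  rw [← he.2] at hzn
  exact h2 z y n hz hy hn hzn hyn

theorem bgf_upair {a b : M} : Fnt (upair a b) := by
  have h : upair a b = ins b (ins a emp) := SW.ext fun z => by
    rw [mem_upair, mem_ins, mem_ins]
    constructor
    · rintro (h | h)
      · exact Or.inl (Or.inr h)
      · exact Or.inr h
    · rintro ((h | h) | h)
      · exact absurd h (not_mem_emp z)
      · exact Or.inl h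
      · exact Or.inr h
  rw [h]
  exact finF.ins (finF.ins finF.emp)

theorem bgf_fnt {w H a : M} (hF : CbA M) (hw : IsW w)
    (hH : ∀ a, Sub a H → Img (ZZ w) a → E a H) (ha : Fnt a) (hs : Sub a H) : E a H :=
  hH a hs (bgf_cb hF hw (hF.fin ha))

theorem bgf_opair {w H a b : M} (hF : CbA M) (hw : IsW w)
    (hH : ∀ a, Sub a H → Img (ZZ w) a → E a H) (ha : E a H) (hb : E b H) : E (opair a b) H := by
  have h : ∀ x y : M, E x H → E y H → E (upair x y) H := fun x y hx hy =>
    bgf_fnt hF hw hH bgf_upair fun z hz => by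
      rw [mem_upair] at hz
      rcases hz with rfl | rfl
      · exact hx
      · exact hy
  exact h _ _ (h a a ha ha) (h a b ha hb)

theorem bgf_sub {w H : M} (hF : CbA M) (hw : IsW w)
    (hH : ∀ a, Sub a H → Img (ZZ w) a → E a H) : Sub w H := by
  intro x
  refine mem_induction (C := fun x : M => E x w → E x H) inferInstance ?_ x
  intro x ih hx
  refine hH x (fun y hy => ih y hy (hw.1.trans hx hy)) (bgf_cb hF hw (hw.2.2 x hx))

end

/-- BGF -/
theorem ma_bgf (h : CBAStmt) : BGFStmt := by
  intro M _ _ w H hw hH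
  have hF := h M
  have hsub := bgf_sub hF hw hH
  refine ⟨fun ha hs => bgf_fnt hF hw hH ha hs, fun ha hb => bgf_opair hF hw hH ha hb, hsub,
    fun {I e} hI he hi => hH e (fun t ht => ?_) hi⟩
  obtain ⟨x, y, q, hx, hy, hq, rfl⟩ := he t ht
  have hc : Cond w I q := mem_PP.1 hq
  refine bgf_opair hF hw hH (bgf_opair hF hw hH (hsub x hx) (hsub y hy)) ?_
  refine bgf_fnt hF hw hH hc.1 fun z hz => ?_
  obtain ⟨e', x', he', hx', rfl⟩ := mem_prod'.1 (hc.2.1 z hz)
  exact bgf_opair hF hw hH (hI e' he') (hsub x' hx')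

end SW
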