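import Pool.Agent.H13.MA.TStmts

/-!
Module CTR of project MA: the two notions of countability agree.
-/

set_option linter.unusedVariables false
set_option synthInstance.maxSize 100000

namespace SW

section
variable {M : Type} [SetStr M] [ZF M]

theorem ctr_ind {z : M} : IsInductive z ↔ Ind z := by
  constructor
  · rintro ⟨⟨e, he, he'⟩, h⟩
    refine ⟨?_, fun y hy => ?_⟩
    · rwa [← eq_emp he]
    · obtain ⟨s, hs, hs'⟩ := h y hy
      have : s = suc y := SW.ext fun w => by rw [hs, mem_suc]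
      rwa [← this]
  · rintro ⟨h0, hs⟩
    exact ⟨⟨emp, not_mem_emp, h0⟩, fun y hy => ⟨suc y, fun t => mem_suc, hs y hy⟩⟩

theorem ctr_omega {w : M} : IsOmega w ↔ w = om := by
  have hom : Ind (om : M) := ⟨emp_mem_om, fun y hy => suc_mem_om hy⟩
  constructor
  · rintro ⟨h1, h2⟩
    refine SW.ext fun n => ⟨fun hn => h2 om (ctr_ind.2 hom) n hn, fun hn => ?_⟩
    exact mem_om.1 hn w (ctr_ind.1 h1)
  · rintro rfl
    exact ⟨ctr_ind.2 hom, fun z hz n hn => mem_om.1 hn z (ctr_ind.1 hz)⟩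

/-- the least number assigned to `y` -/
noncomputable def ctrL (f y : M) : M :=
  the (fun n => E n om ∧ E (opair y n) f ∧ ∀ k, E k n → ¬ E (opair y k) f)

theorem ctrL_df (f : M) : Fn1 (fun y : M => ctrL f y) := by unfold ctrL; infer_instance

theorem ctrL_spec {f y : M} (h : ∃ n, E n om ∧ E (opair y n) f) :
    E (ctrL f y) om ∧ E (opair y (ctrL f y)) f := by
  obtain ⟨n, hn, hf⟩ := h
  obtain ⟨b, hb, ⟨hb1, hb2⟩, hb3, _⟩ := ord_min
    (C := fun n : M => E n om ∧ E (opair y n) f) inferInstance (Ord_nat hn) ⟨hn, hf⟩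
  have h1 := the_spec (p := fun n => E n om ∧ E (opair y n) f ∧ ∀ k, E k n → ¬ E (opair y k) f)
    ⟨b, ⟨hb1, hb2, fun k hk hk' => hb3 k hk ⟨Trans_om b hb1 k hk, hk'⟩⟩, ?_⟩
  · exact ⟨h1.1, h1.2.1⟩
  · rintro m ⟨hm1, hm2, hm3⟩
    rcases hb.tri (Ord_nat hm1) with h | h | h
    · exact absurd hb2 (hm3 b h)
    · exact h.symm
    · exact absurd ⟨hm1, hm2⟩ (hb3 m h)

end

/-- CTR -/
theorem ma_ctr : CTRStmt := by
  intro M _ _ x
  constructor
  · rintro ⟨w, f, hw, h1, _, h3⟩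
    rw [ctr_omega] at hw
    subst hw
    refine ⟨f, fun y hy => ?_, fun y y' n hy hy' _ h h' => ?_⟩
    · obtain ⟨n, hn, h⟩ := h1 y hy
      exact ⟨n, hn, pairIn_iff.1 h⟩
    · exact h3 y y' n hy hy' (pairIn_iff.2 h) (pairIn_iff.2 h')
  · rintro ⟨f, h1, h2⟩
    refine ⟨om, gr x (ctrL f), ctr_omega.2 rfl, fun y hy => ?_, fun y n n' h h' => ?_,
      fun y y' n hy hy' h h' => ?_⟩
    · refine ⟨ctrL f y, (ctrL_spec (h1 y hy)).1, ?_⟩
      rw [pairIn_iff, opair_mem_gr (ctrL_df f)]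
      exact ⟨hy, rfl⟩
    · rw [pairIn_iff, opair_mem_gr (ctrL_df f)] at h h'
      rw [h.2, h'.2]
    · rw [pairIn_iff, opair_mem_gr (ctrL_df f)] at h h'
      have s1 := ctrL_spec (h1 y hy)
      have s2 := ctrL_spec (h1 y' hy')
      rw [← h.2] at s1
      rw [← h'.2] at s2
      exact h2 y y' n hy hy' s1.1 s1.2 s2.2

end SW
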