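import Pool.Agent.H97.MA.BGF

/-!
Module MXE of project MA: maximal ccc systems exist.
-/

set_option linter.unusedVariables false
set_option synthInstance.maxSize 100000

namespace SW

section
variable {M : Type} [SetStr M] [ZF M]

theorem mxe_emp {w : M} (hF : CbA M) : Sys w (emp : M) ∧ CCC (PP w (emp : M)) := by
  refine ⟨fun e he => absurd he (not_mem_emp e), fun a ha => ?_⟩
  refine hF.sub (x := sing emp) (hF.fin ?_) fun p hp => ?_
  · exact bgf_upair
  · have h := mem_PP.1 (ha.1 p hp)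
    rw [mem_sing]
    refine eq_emp fun z hz => ?_
    obtain ⟨e, x, he, _, _⟩ := mem_prod'.1 (h.2.1 z hz)
    exact not_mem_emp e he

end

/-- MXE -/
theorem ma_mxe (hB : BIGStmt) (hC : CHNStmt) (hZ : ZORNStmt) (hA : CBAStmt) : MXEStmt := by
  intro M _ _ w hw
  have hF := hA M
  have h0 := bgf_emp hF hw
  obtain ⟨H, hH⟩ := hB M (ZZ w) ⟨opair (opair emp emp) emp, by
    unfold ZZ
    rw [mem_prod, mem_prod]
    exact ⟨⟨h0, h0⟩, emp_mem_om⟩⟩
  have hCl : Cl (fun J : M => Sys w J ∧ CCC (PP w J)) := inferInstance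
  obtain ⟨m, hm, hmax⟩ := hZ M (sep (pow H) (fun J => Sys w J ∧ CCC (PP w J)))
    ⟨emp, by
      rw [mem_sep' hCl, mem_pow]
      exact ⟨fun z hz => absurd hz (not_mem_emp z), mxe_emp hF⟩⟩
    (by
      intro c hc hne hch
      have hc' : ∀ J, E J c → Sub J H ∧ Sys w J ∧ CCC (PP w J) := fun J hJ => by
        have := hc J hJ
        rw [mem_sep' hCl, mem_pow] at this
        exact this
      refine ⟨sUn c, ?_, fun x hx => sub_sUn hx⟩
      rw [mem_sep' hCl, mem_pow]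
      refine ⟨fun z hz => ?_, hC M w c hw hne (fun J hJ => (hc' J hJ).2) hch⟩
      rw [mem_sUn] at hz
      obtain ⟨J, hJ, hz⟩ := hz
      exact (hc' J hJ).1 z hz)
  rw [mem_sep' hCl, mem_pow] at hm
  refine ⟨H, m, ⟨hw, hH, hm.1, hm.2.1, hm.2.2, fun J h1 h2 h3 h4 => ?_⟩⟩
  refine hmax J ?_ h4
  rw [mem_sep' hCl, mem_pow]
  exact ⟨h1, h2, h3⟩

end SW
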